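import Pool.Agent.Helper10.SP.GoalsC
import Pool.Agent.Helper10.Abund.OpenSub
import Pool.Agent.Helper95.Lin.Basics

/-! # Packet SP-ACB: a priori bounds -/

open Complex Metric Set Filter Topology MeasureTheory
open scoped ContDiff ComplexConjugate ComplexOrder Manifold

namespace Pool.Agent.Helper86.SP

open Pool.Agent.Helper95.Lin Pool.Agent.Helper16.Abund Pool.Agent.Helper92.Orb
  Pool.Agent.Helper10.SP

variable {n : ℕ}

theorem diff_at {W : Set (Cn n)} (hW : IsOpen W) {f : Cn n → ℝ} (hf : ContDiffOn ℝ ∞ f W)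
    {y : Cn n} (hy : y ∈ W) : DifferentiableAt ℝ f y :=
  (hf.differentiableOn (by norm_num)).differentiableAt (hW.mem_nhds hy)

theorem diff2_at {W : Set (Cn n)} (hW : IsOpen W) {f : Cn n → ℝ} (hf : ContDiffOn ℝ ∞ f W)
    {y : Cn n} (hy : y ∈ W) (v : Cn n) : DifferentiableAt ℝ (fun y => fderiv ℝ f y v) y := by
  have h1 : ContDiffOn ℝ ∞ (fderiv ℝ f) W := hf.fderiv_of_isOpen hW (by norm_num)
  have h2 : DifferentiableAt ℝ (fderiv ℝ f) y :=
    (h1.differentiableOn (by norm_num)).differentiableAt (hW.mem_nhds hy)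
  exact h2.clm_apply (differentiableAt_const v)

theorem hess_add {W : Set (Cn n)} (hW : IsOpen W) {f g : Cn n → ℝ} (hf : ContDiffOn ℝ ∞ f W)
    (hg : ContDiffOn ℝ ∞ g W) {x : Cn n} (hx : x ∈ W) (u v : Cn n) :
    hess (fun y => f y + g y) x u v = hess f x u v + hess g x u v := by
  unfold hess
  have h1 : (fun y => fderiv ℝ (fun y => f y + g y) y v) =ᶠ[𝓝 x]
      fun y => fderiv ℝ f y v + fderiv ℝ g y v := by
    filter_upwards [hW.mem_nhds hx] with y hy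
    rw [fderiv_fun_add (diff_at hW hf hy) (diff_at hW hg hy)]
    rfl
  rw [h1.fderiv_eq, fderiv_fun_add (diff2_at hW hf hx v) (diff2_at hW hg hx v)]
  rfl

theorem hess_congr {f g : Cn n → ℝ} {x : Cn n} (h : f =ᶠ[𝓝 x] g) (u v : Cn n) :
    hess f x u v = hess g x u v := by
  unfold hess
  have h1 : (fun y => fderiv ℝ f y v) =ᶠ[𝓝 x] fun y => fderiv ℝ g y v := by
    filter_upwards [h.fderiv (𝕜 := ℝ)] with y hy
    rw [hy]
  rw [h1.fderiv_eq]

theorem lev_add {W : Set (Cn n)} (hW : IsOpen W) {f g : Cn n → ℝ} (hf : ContDiffOn ℝ ∞ f W)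
    (hg : ContDiffOn ℝ ∞ g W) {x : Cn n} (hx : x ∈ W) (e : Cn n) :
    lev (fun y => f y + g y) x e = lev f x e + lev g x e := by
  unfold lev
  rw [hess_add hW hf hg hx, hess_add hW hf hg hx]
  ring

theorem lev_congr {f g : Cn n → ℝ} {x : Cn n} (h : f =ᶠ[𝓝 x] g) (e : Cn n) :
    lev f x e = lev g x e := by
  unfold lev
  rw [hess_congr h, hess_congr h]

/-- the Levi form is preserved -/
theorem lev_id (hW : S_WCH) {U' V : Set (Cn n)} {Ψ Ψ' : Cn n → ℝ} {t : Tri n}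
    (hU' : IsOpen U') (hV : IsOpen V) (hΨ' : ContDiffOn ℝ ∞ Ψ' U') (ht : t.HolOn V)
    (hm : MapsTo t.g V U') (hP : ∀ z ∈ V, PotR Ψ Ψ' t z) {z : Cn n} (hz : z ∈ V) (e : Cn n) :
    lev Ψ z e = lev Ψ' (t.g z) (fderiv ℂ t.g z e) := by
  have hd := Pool.Agent.Helper10.Abund.differentiableOn_det_fderiv hV ht.1
  obtain ⟨s1, k1⟩ := hW.2 V hV (fun y => (fderiv ℂ t.g y).det) hd (fun x hx => (hP x hx).2.1)
  obtain ⟨s2, k2⟩ := hW.2 V hV t.a ht.2.1 (fun x hx => (hP x hx).1)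
  have hg : ContDiffOn ℝ ∞ t.g V := holo_contDiffOn_real hV ht.1
  have s0 : ContDiffOn ℝ ∞ (Ψ' ∘ t.g) V := hΨ'.comp hg hm
  have he : Ψ =ᶠ[𝓝 z] fun y => (Ψ' ∘ t.g) y + (Real.log (‖(fderiv ℂ t.g y).det‖ ^ 2) +
      Real.log (‖t.a y‖ ^ 2)) := by
    filter_upwards [hV.mem_nhds hz] with y hy
    rw [(hP y hy).2.2]
    simp only [Function.comp]
    ring
  rw [lev_congr he, lev_add hV s0 (s1.add s2) hz, lev_add hV s1 s2 hz, (k1 z hz).1, (k2 z hz).1,
    (hW.1 U' V hU' hV t.g ht.1 hm).2 Ψ' hΨ' z hz |>.1 e]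
  ring

theorem hermi_smul' {k : ℕ} (A : Matrix (Fin k) (Fin k) ℂ) (r : ℝ) (u : Cn k) :
    hermi A ((r : ℂ) • u) ((r : ℂ) • u) = ((r ^ 2 : ℝ) : ℂ) * hermi A u u := by
  unfold hermi
  rw [Finset.mul_sum]
  refine Finset.sum_congr rfl fun i _ => ?_
  rw [Finset.mul_sum]
  refine Finset.sum_congr rfl fun j _ => ?_
  simp only [Pi.smul_apply, smul_eq_mul, map_mul, Complex.conj_ofReal]
  push_cast
  ring

/-- two sided bounds of the Levi form on a compact set -/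
theorem lev_bd (hL : S_LMF) {U K : Set (Cn n)} {Ψ : Cn n → ℝ} (hU : IsOpen U) (hK : IsCompact K)
    (hKU : K ⊆ U) (hΨ : ContDiffOn ℝ ∞ Ψ U) (hpos : ∀ z ∈ U, ∀ e, e ≠ 0 → 0 < lev Ψ z e) :
    ∃ c C : ℝ, 0 < c ∧ 0 < C ∧ ∀ z ∈ K, ∀ e, c * ‖e‖ ^ 2 ≤ lev Ψ z e ∧
      lev Ψ z e ≤ C * ‖e‖ ^ 2 := by
  obtain ⟨h1, h2, h3, -⟩ := hL U hU Ψ hΨ
  have h3' : ∀ x ∈ U, ∀ e, lev Ψ x e = (hermi (LM Ψ x) e e).re := by
    intro x hx e
    rw [← h3 x hx e, Complex.ofReal_re]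
  have hS : IsCompact (K ×ˢ sphere (0 : Cn n) 1) := hK.prod (isCompact_sphere _ _)
  have hf : ContinuousOn (fun p : Cn n × Cn n => (hermi (LM Ψ p.1) p.2 p.2).re)
      (K ×ˢ sphere (0 : Cn n) 1) := by
    have hv : ∀ i, Continuous fun p : Cn n × Cn n => p.2 i := by
      intro i
      exact (continuous_apply i).comp continuous_snd
    have h3 : ∀ i j, ContinuousOn (fun p : Cn n × Cn n => LM Ψ p.1 i j)
        (K ×ˢ sphere (0 : Cn n) 1) := fun i j =>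
      ((h1 i j).continuousOn.mono hKU).comp continuousOn_fst (fun p hp => hp.1)
    have h4 : ∀ i j, ContinuousOn (fun p : Cn n × Cn n =>
        LM Ψ p.1 i j * p.2 i * conj (p.2 j)) (K ×ˢ sphere (0 : Cn n) 1) := by
      intro i j
      have h5 : Continuous fun p : Cn n × Cn n => conj (p.2 j) :=
        Complex.continuous_conj.comp (hv j)
      exact ((h3 i j).mul (hv i).continuousOn).mul h5.continuousOn
    have h6 : ContinuousOn (fun p : Cn n × Cn n => hermi (LM Ψ p.1) p.2 p.2)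
        (K ×ˢ sphere (0 : Cn n) 1) := by
      have h7 : ∀ i, ContinuousOn (fun p : Cn n × Cn n =>
        ∑ j, LM Ψ p.1 i j * p.2 i * conj (p.2 j))
        (K ×ˢ sphere (0 : Cn n) 1) := fun i => continuousOn_finsetSum _ fun j _ => h4 i j
      exact continuousOn_finsetSum _ fun i _ => h7 i
    exact Complex.continuous_re.comp_continuousOn h6
  obtain ⟨c, C, hc0, hC0, hcb⟩ : ∃ c C : ℝ, 0 < c ∧ 0 < C ∧ ∀ x ∈ K,
      ∀ u ∈ sphere (0 : Cn n) 1, c ≤ (hermi (LM Ψ x) u u).re ∧ (hermi (LM Ψ x) u u).re ≤ C := by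
    rcases (K ×ˢ sphere (0 : Cn n) 1).eq_empty_or_nonempty with h | h
    · refine ⟨1, 1, one_pos, one_pos, fun x hx u hu => ?_⟩
      exact absurd (mk_mem_prod hx hu) (by rw [h]; exact notMem_empty _)
    · obtain ⟨p, hp1, hp2⟩ := hS.exists_isMinOn h hf
      obtain ⟨q, hq1, hq2⟩ := hS.exists_isMaxOn h hf
      have hne : p.2 ≠ 0 := by
        intro h0
        have h2 : ‖p.2‖ = 1 := by simpa using hp1.2
        rw [h0, norm_zero] at h2
        exact zero_ne_one h2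
      have hp3 : ∀ x ∈ K, ∀ u ∈ sphere (0 : Cn n) 1,
          (hermi (LM Ψ p.1) p.2 p.2).re ≤ (hermi (LM Ψ x) u u).re := by
        intro x hx u hu
        have h6 := (isMinOn_iff.1 hp2) (x, u) (mk_mem_prod hx hu)
        exact h6
      have hq3 : ∀ x ∈ K, ∀ u ∈ sphere (0 : Cn n) 1,
          (hermi (LM Ψ x) u u).re ≤ (hermi (LM Ψ q.1) q.2 q.2).re := by
        intro x hx u hu
        have h6 := (isMaxOn_iff.1 hq2) (x, u) (mk_mem_prod hx hu)
        exact h6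
      have hpp : 0 < (hermi (LM Ψ p.1) p.2 p.2).re := by
        rw [← h3' _ (hKU hp1.1)]
        exact hpos _ (hKU hp1.1) _ hne
      exact ⟨(hermi (LM Ψ p.1) p.2 p.2).re, (hermi (LM Ψ q.1) q.2 q.2).re, hpp,
        lt_of_lt_of_le hpp (hp3 _ hq1.1 _ hq1.2), fun x hx u hu => ⟨hp3 x hx u hu, hq3 x hx u hu⟩⟩
  refine ⟨c, C, hc0, hC0, fun x hx u => ?_⟩
  rw [h3' _ (hKU hx)]
  rcases eq_or_ne u 0 with rfl | hu
  · simp [hermi]
  · have hu' : 0 < ‖u‖ := norm_pos_iff.2 hu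
    set u1 : Cn n := ((‖u‖⁻¹ : ℝ) : ℂ) • u with hu1
    have h1 : ‖u1‖ = 1 := by
      rw [hu1, norm_smul, Complex.norm_real, norm_inv, norm_norm, inv_mul_cancel₀ hu'.ne']
    have h2 : u = ((‖u‖ : ℝ) : ℂ) • u1 := by
      rw [hu1, smul_smul, ← Complex.ofReal_mul, mul_inv_cancel₀ hu'.ne', Complex.ofReal_one,
        one_smul]
    have h6 : (hermi (LM Ψ x) u u).re = ‖u‖ ^ 2 * (hermi (LM Ψ x) u1 u1).re := by
      conv_lhs => rw [h2, hermi_smul']
      rw [Complex.re_ofReal_mul]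
    obtain ⟨h4, h5⟩ := hcb x hx u1 (by simpa using h1)
    rw [h6]
    constructor
    · nlinarith [sq_nonneg ‖u‖]
    · nlinarith [sq_nonneg ‖u‖]

/-- the determinant of a bounded map -/
theorem det_bd (A : Cn n →L[ℂ] Cn n) {C : ℝ} (h : ∀ e, ‖A e‖ ≤ C * ‖e‖) :
    ‖A.det‖ ≤ n.factorial * C ^ n := by
  rw [Pool.Agent.Helper10.Abund.det_eq_matrix]
  have h1 := Matrix.det_le (A := fun i j => A (Pi.single j 1) i)
    (abv := (IsAbsoluteValue.toAbsoluteValue (norm : ℂ → ℝ))) (x := C) (by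
      intro i j
      have h2 : ‖A (Pi.single j 1) i‖ ≤ ‖A (Pi.single j 1)‖ := norm_le_pi_norm _ i
      have h3 := h (Pi.single j 1)
      have h4 : ‖(Pi.single j (1 : ℂ) : Cn n)‖ = 1 := by
        have h5 := Pi.norm_single (G := fun _ : Fin n => ℂ) (i := j) (1 : ℂ)
        rw [h5, norm_one]
      rw [h4, mul_one] at h3
      exact h2.trans h3)
  simpa [nsmul_eq_mul] using h1

/-- the determinant of an expanding map -/
theorem det_bd' (A : Cn n →L[ℂ] Cn n) {C : ℝ} (hA : A.det ≠ 0) (h : ∀ e, ‖e‖ ≤ C * ‖A e‖) :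
    1 ≤ (n.factorial * C ^ n) * ‖A.det‖ := by
  set L := LinearMap.equivOfDetNeZero (A : Cn n →ₗ[ℂ] Cn n) hA with hL
  have hLe : ∀ e, L e = A e := fun e => rfl
  set B : Cn n →L[ℂ] Cn n := LinearMap.toContinuousLinearMap (L.symm : Cn n →ₗ[ℂ] Cn n) with hB
  have hBe : ∀ e, B e = L.symm e := fun e => rfl
  have h1 : ‖B.det‖ ≤ n.factorial * C ^ n := by
    apply det_bd
    intro e
    have h2 := h (B e)
    rw [← hLe, hBe, LinearEquiv.apply_symm_apply] at h2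
    exact h2
  have h3 : A.det * B.det = 1 := by
    have h4 := LinearEquiv.det_mul_det_symm L
    exact h4
  have h5 : ‖B.det‖ * ‖A.det‖ = 1 := by
    rw [← norm_mul, mul_comm, h3, norm_one]
  calc (1 : ℝ) = ‖B.det‖ * ‖A.det‖ := h5.symm
    _ ≤ _ := mul_le_mul_of_nonneg_right h1 (norm_nonneg _)

theorem sq_bd {c D x y : ℝ} (hc : 0 < c) (hD : 0 < D) (hx : 0 ≤ x) (hy : 0 ≤ y)
    (h : c * x ^ 2 ≤ D * y ^ 2) : x ≤ √(D / c) * y := by
  have h1 : x ^ 2 ≤ (√(D / c) * y) ^ 2 := by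
    rw [mul_pow, Real.sq_sqrt (by positivity), div_mul_eq_mul_div, le_div_iff₀ hc]
    linarith
  exact (pow_le_pow_iff_left₀ hx (by positivity) two_ne_zero).1 h1

/-- ACB. A priori bounds. -/
theorem acb (hWCH : S_WCH) (hLMF : S_LMF) : S_ACB := by
  intro b U U' K K' Ψ Ψ' hU hU' hK hKU hK' hKU' hΨ hΨ' hp hp'
  obtain ⟨c, D, hc, hD, h1⟩ := lev_bd hLMF hU hK hKU hΨ hp
  obtain ⟨c', D', hc', hD', h1'⟩ := lev_bd hLMF hU' hK' hKU' hΨ' hp'
  obtain ⟨B, hB⟩ := hK.exists_bound_of_continuousOn (hΨ.continuousOn.mono hKU)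
  obtain ⟨B', hB'⟩ := hK'.exists_bound_of_continuousOn (hΨ'.continuousOn.mono hKU')
  set C1 := √(D / c') with hC1
  set C2 := √(D' / c) with hC2
  set E := Real.exp ((B + B') / 2) with hE
  have hC1' : 0 ≤ C1 := Real.sqrt_nonneg _
  have hC2' : 0 ≤ C2 := Real.sqrt_nonneg _
  have hE0 : 0 < E := Real.exp_pos _
  set M : ℝ := b.factorial * C1 ^ b with hM
  set N : ℝ := b.factorial * C2 ^ b with hN
  have hM0 : 0 ≤ M := by positivity
  have hN0 : 0 ≤ N := by positivity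
  refine ⟨1 + C1 + C2 + N * E + E * M, ?_, ?_⟩
  · have : 0 ≤ N * E := by positivity
    have : 0 ≤ E * M := by positivity
    linarith
  intro V t hV hVU ht hm hP z hz hzK hgz
  have hid := lev_id hWCH hU' hV hΨ' ht hm hP hz
  set J := fderiv ℂ t.g z with hJ
  have hup : ∀ e, ‖J e‖ ≤ C1 * ‖e‖ := by
    intro e
    apply sq_bd hc' hD (norm_nonneg _) (norm_nonneg _)
    have h2 := (h1 z hzK e).2
    rw [hid e] at h2
    exact ((h1' _ hgz (J e)).1).trans h2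
  have hlo : ∀ e, ‖e‖ ≤ C2 * ‖J e‖ := by
    intro e
    apply sq_bd hc hD' (norm_nonneg _) (norm_nonneg _)
    have h2 := (h1 z hzK e).1
    rw [hid e] at h2
    exact h2.trans (h1' _ hgz (J e)).2
  obtain ⟨ha, hdet, hpot⟩ := hP z hz
  have hdM : ‖J.det‖ ≤ M := det_bd J hup
  have hdN : 1 ≤ N * ‖J.det‖ := det_bd' J hdet hlo
  have ha0 : 0 < ‖t.a z‖ := norm_pos_iff.2 ha
  have hd0 : 0 < ‖J.det‖ := norm_pos_iff.2 hdet
  have hlog : Real.log (‖t.a z‖ * ‖J.det‖) = (Ψ z - Ψ' (t.g z)) / 2 := by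
    rw [Real.log_mul ha0.ne' hd0.ne']
    rw [Real.log_pow, Real.log_pow] at hpot
    push_cast at hpot
    linarith
  have hexp : ‖t.a z‖ * ‖J.det‖ = Real.exp ((Ψ z - Ψ' (t.g z)) / 2) := by
    rw [← hlog, Real.exp_log (by positivity)]
  have hb1 := hB z hzK
  have hb2 := hB' _ hgz
  rw [Real.norm_eq_abs, abs_le] at hb1 hb2
  have hP1 : ‖t.a z‖ * ‖J.det‖ ≤ E := by
    rw [hexp]
    apply Real.exp_le_exp.2
    linarith [hb1.2, hb2.1]
  have hP2 : 1 ≤ E * (‖t.a z‖ * ‖J.det‖) := by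
    rw [hexp, hE, ← Real.exp_add]
    apply Real.one_le_exp
    linarith [hb1.1, hb2.2]
  have k1 : 0 ≤ N * E := by positivity
  have k2 : 0 ≤ E * M := by positivity
  have ka : ‖t.a z‖ ≤ N * E := by
    calc ‖t.a z‖ = ‖t.a z‖ * 1 := (mul_one _).symm
      _ ≤ ‖t.a z‖ * (N * ‖J.det‖) := mul_le_mul_of_nonneg_left hdN ha0.le
      _ = N * (‖t.a z‖ * ‖J.det‖) := by ring
      _ ≤ N * E := mul_le_mul_of_nonneg_left hP1 hN0
  have kb : 1 ≤ E * M * ‖t.a z‖ := by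
    calc 1 ≤ E * (‖t.a z‖ * ‖J.det‖) := hP2
      _ = E * ‖t.a z‖ * ‖J.det‖ := by ring
      _ ≤ E * ‖t.a z‖ * M := mul_le_mul_of_nonneg_left hdM (by positivity)
      _ = E * M * ‖t.a z‖ := by ring
  refine ⟨by linarith, kb.trans (mul_le_mul_of_nonneg_right (by linarith) ha0.le),
    fun e => ⟨(hup e).trans (mul_le_mul_of_nonneg_right (by linarith) (norm_nonneg _)),
      (hlo e).trans (mul_le_mul_of_nonneg_right (by linarith) (norm_nonneg _))⟩⟩

end Pool.Agent.Helper86.SP
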