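import Pool.Agent.Helper45.SP.GoalsF
import Pool.Agent.Helper27.Lin.Montel
import Pool.Agent.Helper19.Lin.IDT

/-! # Packet SP-LCONV: near the identity on a small ball implies near the identity on larger balls -/

open Complex Metric Set Filter Topology
open scoped ContDiff ComplexConjugate

namespace Pool.Agent.Helper86.SP

open Pool.Agent.Helper95.Lin Pool.Agent.Helper10.SP Pool.Agent.Helper45.SP

theorem LCONV : S_LCONV := by
  intro b z₀ r A hA x ρ₀ hρ₀ hx ρ hρ ε hε
  by_contra hcon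
  have hex : ∀ n : ℕ, ∃ t ∈ A, Near x ρ₀ t.g (1 / ((n : ℝ) + 1)) ∧ ¬ Near z₀ ρ t.g ε := by
    intro n
    by_contra h
    apply hcon
    refine ⟨1 / ((n : ℝ) + 1), by positivity, fun t ht hN => ?_⟩
    by_contra h2
    exact h ⟨t, ht, hN, h2⟩
  choose t htA htN htF using hex
  obtain ⟨C, hC⟩ := hA.bdd
  obtain ⟨φ, hφ, F, hF, hconv⟩ := _root_.Helper27.LinMontel.montel (ball z₀ r) isOpen_ball
    (fun n => (t n).g) (fun n => hA.g_holo _ (htA n))
    (fun K hK _ => ⟨C, fun k z hz => hC _ (htA k) z (hK hz)⟩)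
  have hxr : ∀ z ∈ ball x ρ₀, F z = z := by
    intro z hz
    have hzr : z ∈ ball z₀ r := hx hz
    by_contra hne
    have hpos : 0 < ‖F z - z‖ := norm_pos_iff.2 (sub_ne_zero.2 hne)
    have h1 := hconv {z} (by simpa using hzr) isCompact_singleton (‖F z - z‖ / 4) (by positivity)
    have h2 : ∀ᶠ k : ℕ in atTop, 1 / ((k : ℝ) + 1) < ‖F z - z‖ / 4 := by
      have h3 := tendsto_one_div_add_atTop_nhds_zero_nat (𝕜 := ℝ)
      exact h3.eventually (gt_mem_nhds (by positivity))
    have h4 := hφ.tendsto_atTop.eventually h2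
    obtain ⟨k, hk1, hk2⟩ := (h1.and h4).exists
    have h5 := hk1 z rfl
    have h6 := htN (φ k) z hz
    have h7 : ‖F z - z‖ ≤ ‖(t (φ k)).g z - F z‖ + ‖(t (φ k)).g z - z‖ := by
      have : F z - z = -((t (φ k)).g z - F z) + ((t (φ k)).g z - z) := by abel
      calc ‖F z - z‖ = ‖-((t (φ k)).g z - F z) + ((t (φ k)).g z - z)‖ := by rw [← this]
        _ ≤ ‖-((t (φ k)).g z - F z)‖ + ‖(t (φ k)).g z - z‖ := norm_add_le _ _
        _ = _ := by rw [norm_neg]
    linarith
  have hid : ∀ z ∈ ball z₀ r, F z - z = 0 := by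
    have hx0 : x ∈ ball x ρ₀ := mem_ball_self hρ₀
    refine Pool.Agent.Helper19.Lin.idt (ball z₀ r) isOpen_ball (convex_ball z₀ r).isPreconnected
      (fun z => F z - z) (hF.sub differentiableOn_id) x (hx hx0) ?_
    filter_upwards [isOpen_ball.mem_nhds hx0] with z hz
    rw [hxr z hz, sub_self]
  have h1 := hconv (closedBall z₀ ρ) (closedBall_subset_ball hρ) (isCompact_closedBall _ _) ε hε
  obtain ⟨k, hk⟩ := h1.exists
  apply htF (φ k)
  intro z hz
  have hz' : z ∈ closedBall z₀ ρ := ball_subset_closedBall hz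
  have h2 := hk z hz'
  have h3 : F z = z := sub_eq_zero.1 (hid z (closedBall_subset_ball hρ hz'))
  rw [h3] at h2
  exact h2

end Pool.Agent.Helper86.SP
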