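import Pool.Agent.Helper82.SP.GoalsB

/-!
# Packet SP-LIN (MP_db6300_gt): linear functions on the rotation group
-/

set_option autoImplicit false

namespace Pool.Agent.Helper86.SP.LIN

open Matrix Real
open Pool.Agent.Helper26.LU
open Pool.Agent.Helper82.SP

lemma c1_SO3 : (!![0, 1, 0; 0, 0, 1; 1, 0, 0] : M3) ∈ SO3 := by
  rw [mem_SO3]
  constructor
  · ext i j
    fin_cases i <;> fin_cases j <;> simp [Matrix.mul_apply, Fin.sum_univ_three]
  · simp [Matrix.det_fin_three]

lemma c2_SO3 : (!![0, 0, 1; 1, 0, 0; 0, 1, 0] : M3) ∈ SO3 := by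
  rw [mem_SO3]
  constructor
  · ext i j
    fin_cases i <;> fin_cases j <;> simp [Matrix.mul_apply, Fin.sum_univ_three]
  · simp [Matrix.det_fin_three]

lemma dg_SO3 (d : Fin 3 → ℝ) (h : ∀ i, d i * d i = 1) (h' : d 0 * d 1 * d 2 = 1) :
    (Matrix.diagonal d : M3) ∈ SO3 := by
  rw [mem_SO3]
  constructor
  · rw [Matrix.diagonal_transpose, Matrix.diagonal_mul_diagonal]
    rw [← Matrix.diagonal_one]
    congr 1
    funext i
    exact h i
  · rw [Matrix.det_diagonal, Fin.prod_univ_three]
    exact h'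

theorem goalLIN (hE : G_EXT) : G_LIN := by
  intro G k U hU hne hG
  -- extension to all rotations
  have hall : ∀ R ∈ SO3, ∑ p, ∑ m, G p m * R p m = k := by
    let v : Fin 4 → V := ![Pi.single 0 1, Pi.single 1 1, Pi.single 2 1, 0]
    let L : (Fin 4 → V) →L[ℝ] ℝ := ∑ p : Fin 3, ∑ m : Fin 3,
      G p m • ((ContinuousLinearMap.proj (R := ℝ) (φ := fun _ : Fin 3 => ℝ) p).comp
        (ContinuousLinearMap.proj (R := ℝ) (φ := fun _ : Fin 4 => V) m.castSucc))
    have hL : ∀ z, L z = ∑ p : Fin 3, ∑ m : Fin 3, G p m * z m.castSucc p := by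
      intro z
      simp [L]
    have hv : ∀ (R : M3) (m p : Fin 3), (R *ᵥ v m.castSucc) p = R p m := by
      intro R m p
      fin_cases m <;> simp [v]
    have h1 : ∀ R : M3, L (fun i => R *ᵥ v i) = ∑ p, ∑ m, G p m * R p m := by
      intro R
      rw [hL]
      refine Finset.sum_congr rfl fun p _ => Finset.sum_congr rfl fun m _ => ?_
      rw [hv]
    have h2 := hE (fun z => L z - k) v U ((L.analyticOnNhd _).sub analyticOnNhd_const) hU hne
      (by
        intro R hR hR'
        show L (fun i => R *ᵥ v i) - k = 0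
        rw [h1, hG R hR hR', sub_self])
    intro R hR
    have h3 : L (fun i => R *ᵥ v i) - k = 0 := h2 R hR
    rw [h1] at h3
    exact sub_eq_zero.1 h3
  -- the columns
  have hcol : ∀ R ∈ SO3, ∀ m, ∑ p, G p m * R p m = 0 := by
    intro R hR
    have e0 := hall R hR
    have e1 := hall _ (SO3_mul hR (dg_SO3 ![1, -1, -1] (by intro i; fin_cases i <;> simp)
      (by simp)))
    have e2 := hall _ (SO3_mul hR (dg_SO3 ![-1, 1, -1] (by intro i; fin_cases i <;> simp)
      (by simp)))
    have e3 := hall _ (SO3_mul hR (dg_SO3 ![-1, -1, 1] (by intro i; fin_cases i <;> simp)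
      (by simp)))
    simp only [Matrix.mul_diagonal, Fin.sum_univ_three, Matrix.cons_val_zero,
      Matrix.cons_val_one, Matrix.cons_val] at e0 e1 e2 e3
    intro m
    fin_cases m
    · simp only [Fin.sum_univ_three]
      show G 0 0 * R 0 0 + G 1 0 * R 1 0 + G 2 0 * R 2 0 = 0
      linarith
    · simp only [Fin.sum_univ_three]
      show G 0 1 * R 0 1 + G 1 1 * R 1 1 + G 2 1 * R 2 1 = 0
      linarith
    · simp only [Fin.sum_univ_three]
      show G 0 2 * R 0 2 + G 1 2 * R 1 2 + G 2 2 * R 2 2 = 0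
      linarith
  have h1 := hcol 1 SO3_one
  have h2 := hcol _ c1_SO3
  have h3 := hcol _ c2_SO3
  ext i j
  fin_cases i <;> fin_cases j
  · simpa [Fin.sum_univ_three] using h1 0
  · simpa [Fin.sum_univ_three] using h2 1
  · simpa [Fin.sum_univ_three] using h3 2
  · simpa [Fin.sum_univ_three] using h3 0
  · simpa [Fin.sum_univ_three] using h1 1
  · simpa [Fin.sum_univ_three] using h2 2
  · simpa [Fin.sum_univ_three] using h2 0
  · simpa [Fin.sum_univ_three] using h3 1
  · simpa [Fin.sum_univ_three] using h1 2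

end Pool.Agent.Helper86.SP.LIN
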